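import Pool.Agent.T2h50.DB.Lift

set_option autoImplicit false
set_option linter.unusedSectionVars false

/-!
# Connected balanced sets of words of every size
-/

namespace Pool.Agent.T2h50.DB

open Finset

section
variable {m : ℕ} [NeZero m]

lemma Walk.pow' {d : ℕ} {E : Finset (Fin (d + 1) → ZMod m)} {u : Fin d → ZMod m} {s n S : ZMod m}
    (w : Walk E u u s n S) (j : ℕ) : ∃ S', Walk E u u (j * s) (j * n) S' := by
  induction j with
  | zero => exact ⟨0, (Walk.nil _).cast (by simp) (by simp) rfl⟩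
  | succ j ih =>
    obtain ⟨S', w'⟩ := ih
    exact ⟨_, (w.trans w').cast (by push_cast; ring) (by push_cast; ring) rfl⟩

lemma c2_of_det {d : ℕ} {E : Finset (Fin (d + 1) → ZMod m)} (p : Fin d → ZMod m)
    (h1 : ∀ u, V E u → ∃ s n S, Walk E u p s n S) (h2 : ∀ u, V E u → ∃ s n S, Walk E p u s n S)
    {a b S1 c e S2 i : ZMod m} (w1 : Walk E p p a b S1) (w2 : Walk E p p c e S2)
    (hi : (a * e - b * c) * i = 1) : C2 E := by
  intro u v hu hv s n
  obtain ⟨s1, n1, S3, w3⟩ := h1 u hu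
  obtain ⟨s2, n2, S4, w4⟩ := h2 v hv
  set x := s - s1 - s2 with hx
  set y := n - n1 - n2 with hy
  obtain ⟨S5, w5⟩ := w1.pow' (i * (e * x - c * y)).val
  obtain ⟨S6, w6⟩ := w2.pow' (i * (a * y - b * x)).val
  refine ⟨_, (((w3.trans w5).trans w6).trans w4).cast ?_ ?_ rfl⟩
  · rw [ZMod.natCast_zmod_val, ZMod.natCast_zmod_val]
    linear_combination x * hi + hx
  · rw [ZMod.natCast_zmod_val, ZMod.natCast_zmod_val]
    linear_combination y * hi + hy

lemma Bal.union {d : ℕ} {E F : Finset (Fin (d + 1) → ZMod m)} (hE : Bal E) (hF : Bal F)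
    (h : Disjoint E F) : Bal (E ∪ F) := by
  intro v
  rw [Finset.filter_union, Finset.filter_union, Finset.card_union_of_disjoint,
    Finset.card_union_of_disjoint, hE v, hF v]
  · exact h.mono (Finset.filter_subset _ _) (Finset.filter_subset _ _)
  · exact h.mono (Finset.filter_subset _ _) (Finset.filter_subset _ _)

/-- constant words -/
def loops (d : ℕ) (T : Finset (ZMod m)) : Finset (Fin (d + 1) → ZMod m) :=
  T.image fun c _ => c

lemma mem_loops {d : ℕ} {T : Finset (ZMod m)} {e : Fin (d + 1) → ZMod m} :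
    e ∈ loops d T ↔ ∃ c ∈ T, (fun _ => c) = e := by simp [loops]

lemma const_mem_loops {d : ℕ} {T : Finset (ZMod m)} {c : ZMod m} :
    (fun _ => c) ∈ loops d T ↔ c ∈ T := by
  rw [mem_loops]
  constructor
  · rintro ⟨c', h, h'⟩
    rw [← congrFun h' 0]; exact h
  · intro h; exact ⟨c, h, rfl⟩

lemma card_loops {d : ℕ} {T : Finset (ZMod m)} : (loops d T).card = T.card := by
  apply Finset.card_image_of_injective
  intro a b h
  exact congrFun h 0

lemma bal_loops {d : ℕ} {T : Finset (ZMod m)} : Bal (loops d T) := by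
  intro v
  congr 1
  apply Finset.filter_congr
  intro e he
  obtain ⟨c, _, rfl⟩ := mem_loops.1 he
  rfl

/-- adding loops -/
lemma add_loops {d : ℕ} {E : Finset (Fin (d + 1) → ZMod m)} (T : Finset (ZMod m))
    (hV : ∀ c ∈ T, V E (fun _ => c)) (hnot : ∀ c ∈ T, (fun _ => c) ∉ E) (hB : Bal E) :
    (E ∪ loops d T).card = E.card + T.card ∧ Bal (E ∪ loops d T) ∧
      (∀ u, V (E ∪ loops d T) u ↔ V E u) := by
  have hd : Disjoint E (loops d T) := by
    rw [Finset.disjoint_right]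
    intro e he
    obtain ⟨c, hc, rfl⟩ := mem_loops.1 he
    exact hnot c hc
  refine ⟨?_, hB.union bal_loops hd, ?_⟩
  · rw [Finset.card_union_of_disjoint hd, card_loops]
  · intro u
    constructor
    · rintro ⟨e, he, rfl⟩
      rw [Finset.mem_union] at he
      rcases he with he | he
      · exact ⟨e, he, rfl⟩
      · obtain ⟨c, hc, rfl⟩ := mem_loops.1 he
        exact hV c hc
    · rintro ⟨e, he, rfl⟩
      exact ⟨e, Finset.mem_union_left _ he, rfl⟩

lemma C0.mono {d : ℕ} {E E' : Finset (Fin (d + 1) → ZMod m)} (h : C0 E) (hs : E ⊆ E')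
    (hV : ∀ u, V E' u ↔ V E u) : C0 E' := by
  intro u v hu hv
  obtain ⟨s, n, S, w⟩ := h u v ((hV u).1 hu) ((hV v).1 hv)
  exact ⟨s, n, S, w.mono hs⟩

lemma C2.mono {d : ℕ} {E E' : Finset (Fin (d + 1) → ZMod m)} (h : C2 E) (hs : E ⊆ E')
    (hV : ∀ u, V E' u ↔ V E u) : C2 E' := by
  intro u v hu hv s n
  obtain ⟨S, w⟩ := h u v ((hV u).1 hu) ((hV v).1 hv) s n
  exact ⟨S, w.mono hs⟩

/-- the letters `1, ..., s` -/
def seg (m s : ℕ) : Finset (ZMod m) := (Finset.Icc 1 s).image fun i : ℕ => (i : ZMod m)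

lemma card_seg {s : ℕ} (hs : s ≤ m) : (seg m s).card = s := by
  have : (seg m s).card = (Finset.Icc 1 s).card := by
    apply Finset.card_image_of_injOn
    intro i hi j hj hij
    simp only [coe_Icc, Set.mem_Icc] at hi hj
    simp only at hij
    rw [ZMod.natCast_eq_natCast_iff] at hij
    by_cases h : i = m
    · by_cases h' : j = m
      · rw [h, h']
      · rw [h] at hij
        have h1 : m % m = j % m := hij
        rw [Nat.mod_self, Nat.mod_eq_of_lt (by omega)] at h1
        omega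
    · by_cases h' : j = m
      · rw [h'] at hij
        have h1 : i % m = m % m := hij
        rw [Nat.mod_self, Nat.mod_eq_of_lt (by omega)] at h1
        omega
      · have h1 : i % m = j % m := hij
        rwa [Nat.mod_eq_of_lt (by omega), Nat.mod_eq_of_lt (by omega)] at h1
  rw [this]; simp

lemma zero_notMem_seg {s : ℕ} (hs : s < m) : (0 : ZMod m) ∉ seg m s := by
  intro h
  simp only [seg, Finset.mem_image, Finset.mem_Icc] at h
  obtain ⟨i, hi, h0⟩ := h
  rw [ZMod.natCast_eq_zero_iff] at h0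
  exact absurd (Nat.le_of_dvd (by omega) h0) (by omega)

lemma one_mem_seg {s : ℕ} (hs : 1 ≤ s) : (1 : ZMod m) ∈ seg m s := by
  simp only [seg, Finset.mem_image, Finset.mem_Icc]
  exact ⟨1, ⟨le_rfl, hs⟩, by simp⟩

lemma two_mem_seg {s : ℕ} (hs : 2 ≤ s) : (2 : ZMod m) ∈ seg m s := by
  simp only [seg, Finset.mem_image, Finset.mem_Icc]
  exact ⟨2, ⟨by omega, hs⟩, by simp⟩

/-- the sets used in the recursion -/
def Core (m : ℕ) [NeZero m] (d q : ℕ) : Prop :=
  ∃ E : Finset (Fin (d + 1) → ZMod m), E.card = q ∧ Bal E ∧ C2 E ∧ (fun _ => 0) ∉ E ∧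
    V E (fun _ => 0)

lemma D_const {d : ℕ} (c : ZMod m) : D (fun _ : Fin (d + 1) => c) = fun _ => 0 := by
  funext i; simp [D]

lemma V_lift_const {d : ℕ} {E : Finset (Fin (d + 1) → ZMod m)} (h : V E (fun _ => 0))
    (c : ZMod m) : V (lift E) (fun _ => c) := by
  rw [V_lift, D_const]; exact h

lemma const_notMem_lift {d : ℕ} {E : Finset (Fin (d + 1) → ZMod m)} (h : (fun _ => 0) ∉ E)
    (c : ZMod m) : (fun _ => c) ∉ lift E := by
  rw [mem_lift, D_const]; exact h

lemma Core.step {d q s : ℕ} (h : Core m d q) (hs : s < m) : Core m (d + 1) (m * q + s) := by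
  obtain ⟨E, hq, hB, hC, h0, hV⟩ := h
  obtain ⟨h1, h2, h3⟩ := add_loops (seg m s) (fun c _ => V_lift_const hV c)
    (fun c _ => const_notMem_lift h0 c) hB.lift
  refine ⟨_, ?_, h2, hC.lift.mono Finset.subset_union_left h3, ?_, ?_⟩
  · rw [h1, card_lift, hq, card_seg hs.le]
  · rw [Finset.mem_union, not_or]
    refine ⟨const_notMem_lift h0 0, ?_⟩
    rw [const_mem_loops]
    exact zero_notMem_seg hs
  · rw [h3]; exact V_lift_const hV 0

lemma bal_zero (E : Finset (Fin (0 + 1) → ZMod m)) : Bal E := by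
  intro v
  have : (fun e : Fin (0 + 1) → ZMod m => Fin.init e = v) = fun e => Fin.tail e = v := by
    funext e
    simp only [eq_iff_iff]
    exact ⟨fun _ => Subsingleton.elim _ _, fun _ => Subsingleton.elim _ _⟩
  simp only [this]

lemma c0_zero (E : Finset (Fin (0 + 1) → ZMod m)) : C0 E := by
  intro u v _ _
  rw [Subsingleton.elim v u]
  exact ⟨_, _, _, Walk.nil u⟩

lemma V_zero {E : Finset (Fin (0 + 1) → ZMod m)} (hE : E.Nonempty) (v) : V E v := by
  obtain ⟨e, he⟩ := hE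
  exact ⟨e, he, Subsingleton.elim _ _⟩

/-- level one sets -/
lemma level_one {q : ℕ} (h1 : 1 ≤ q) (hq : q ≤ m) :
    ∃ E : Finset (Fin (0 + 1) → ZMod m), E.card = q ∧ Bal E ∧ C1 E ∧ V E (fun _ => 0) ∧
      (q < m → (fun _ => 0) ∉ E) ∧ (2 ≤ q → C2 E) := by
  have hc1 : (fun _ => (1 : ZMod m)) ∈ loops 0 (seg m q) := const_mem_loops.2 (one_mem_seg h1)
  refine ⟨loops 0 (seg m q), ?_, bal_zero _, (c0_zero _).c1 hc1, V_zero ⟨_, hc1⟩ _, ?_, ?_⟩
  · rw [card_loops, card_seg hq]
  · intro h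
    rw [const_mem_loops]
    exact zero_notMem_seg h
  · intro h
    exact (c0_zero _).c2 hc1 (const_mem_loops.2 (two_mem_seg h))

/-- the case of one cycle of the lift and at least two loops -/
lemma core_c {s : ℕ} (h2 : 2 ≤ s) (hs : s < m) : Core m 1 (m + s) := by
  obtain ⟨E, hq, hB, hC, hV, h0, _⟩ := level_one (m := m) (q := 1) le_rfl (by omega)
  have h0' := h0 (by omega)
  obtain ⟨e1, e2, e3⟩ := add_loops (seg m s) (fun c _ => V_lift_const hV c)
    (fun c _ => const_notMem_lift h0' c) hB.lift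
  refine ⟨_, ?_, e2, (hC.lift.mono Finset.subset_union_left e3).c2 ?_ ?_, ?_, ?_⟩
  · rw [e1, card_lift, hq, card_seg hs.le, mul_one]
  · exact Finset.mem_union_right _ (const_mem_loops.2 (one_mem_seg (by omega)))
  · exact Finset.mem_union_right _ (const_mem_loops.2 (two_mem_seg h2))
  · rw [Finset.mem_union, not_or]
    refine ⟨const_notMem_lift h0' 0, ?_⟩
    rw [const_mem_loops]
    exact zero_notMem_seg hs
  · rw [e3]; exact V_lift_const hV 0

end

section
variable {m : ℕ} [NeZero m]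

/-- two letter word -/
def pr (a b : ZMod m) : Fin (1 + 1) → ZMod m := ![a, b]
/-- one letter word -/
def vx (a : ZMod m) : Fin 1 → ZMod m := fun _ => a

lemma init_pr (a b : ZMod m) : Fin.init (pr a b) = vx a := by
  funext i
  have : i = 0 := Subsingleton.elim _ _
  subst this
  rfl

lemma tail_pr (a b : ZMod m) : Fin.tail (pr a b) = vx b := by
  funext i
  have : i = 0 := Subsingleton.elim _ _
  subst this
  rfl

lemma vx_inj {a b : ZMod m} : vx a = vx b ↔ a = b :=
  ⟨fun h => congrFun h 0, fun h => by rw [h]⟩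

lemma pr_inj {a b c e : ZMod m} : pr a b = pr c e ↔ a = c ∧ b = e :=
  ⟨fun h => ⟨congrFun h 0, congrFun h 1⟩, fun h => by rw [h.1, h.2]⟩

/-- `0 ↦ 2`, `1 ↦ 1`, `a ↦ a + 1` otherwise -/
def nx (m : ℕ) : Equiv.Perm (ZMod m) := (Equiv.addRight (1 : ZMod m)).trans (Equiv.swap 1 2)

lemma nx_zero : nx m 0 = 2 := by simp [nx]

lemma nx_one : nx m 1 = 1 := by
  have : (1 : ZMod m) + 1 = 2 := by norm_num
  simp [nx, this]

lemma nx_of_ne {a : ZMod m} (h0 : a ≠ 0) (h1 : a ≠ 1) : nx m a = a + 1 := by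
  simp only [nx, Equiv.trans_apply, Equiv.coe_addRight]
  apply Equiv.swap_apply_of_ne_of_ne
  · intro h; exact h0 (by linear_combination h)
  · intro h; exact h1 (by linear_combination h)

/-- the cycle `0 → 2 → 3 → ... → m - 1 → 0` -/
def cyc (m : ℕ) [NeZero m] : Finset (Fin (1 + 1) → ZMod m) :=
  (univ.filter fun a : ZMod m => a ≠ 1).image fun a => pr a (nx m a)

lemma mem_cyc {e : Fin (1 + 1) → ZMod m} : e ∈ cyc m ↔ ∃ a, a ≠ 1 ∧ pr a (nx m a) = e := by
  simp [cyc]

lemma card_cyc : (cyc m).card = m - 1 := by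
  rw [cyc, Finset.card_image_of_injective]
  · rw [Finset.filter_ne', Finset.card_erase_of_mem (Finset.mem_univ _), Finset.card_univ,
      ZMod.card]
  · intro a b h
    exact (pr_inj.1 h).1

lemma V_cyc {a : ZMod m} : V (cyc m) (vx a) ↔ a ≠ 1 := by
  constructor
  · rintro ⟨e, he, h⟩
    obtain ⟨b, hb, rfl⟩ := mem_cyc.1 he
    rw [init_pr, vx_inj] at h
    rwa [← h]
  · intro h
    exact ⟨pr a (nx m a), mem_cyc.2 ⟨a, h, rfl⟩, init_pr _ _⟩

lemma exists_vx (v : Fin 1 → ZMod m) : ∃ a, v = vx a :=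
  ⟨v 0, by funext i; have : i = 0 := Subsingleton.elim _ _; subst this; rfl⟩

lemma bal_cyc : Bal (cyc m) := by
  intro v
  obtain ⟨a, rfl⟩ := exists_vx v
  refine Finset.card_nbij' (fun e => pr ((nx m).symm (e 0)) (e 0))
    (fun e => pr (e 1) (nx m (e 1))) ?_ ?_ ?_ ?_
  · intro e he
    simp only [coe_filter, Set.mem_ofPred_eq] at he ⊢
    obtain ⟨h1, h2⟩ := he
    obtain ⟨b, hb, rfl⟩ := mem_cyc.1 h1
    rw [init_pr, vx_inj] at h2
    refine ⟨mem_cyc.2 ⟨(nx m).symm b, ?_, ?_⟩, ?_⟩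
    · intro h
      rw [Equiv.symm_apply_eq, nx_one] at h
      exact hb h
    · rw [Equiv.apply_symm_apply]; rfl
    · rw [tail_pr]
      show vx b = vx a
      rw [h2]
  · intro e he
    simp only [coe_filter, Set.mem_ofPred_eq] at he ⊢
    obtain ⟨h1, h2⟩ := he
    obtain ⟨b, hb, rfl⟩ := mem_cyc.1 h1
    rw [tail_pr, vx_inj] at h2
    refine ⟨mem_cyc.2 ⟨nx m b, ?_, rfl⟩, ?_⟩
    · intro h
      rw [← nx_one (m := m)] at h
      apply hb
      rw [nx_one] at h
      exact (nx m).injective (h.trans nx_one.symm)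
    · rw [init_pr]
      show vx (nx m b) = vx a
      rw [h2]
  · intro e he
    simp only [coe_filter, Set.mem_ofPred_eq] at he ⊢
    obtain ⟨b, hb, rfl⟩ := mem_cyc.1 he.1
    show pr b (nx m b) = _
    rfl
  · intro e he
    simp only [coe_filter, Set.mem_ofPred_eq] at he ⊢
    obtain ⟨b, hb, rfl⟩ := mem_cyc.1 he.1
    show pr ((nx m).symm (nx m b)) (nx m b) = _
    rw [Equiv.symm_apply_apply]

lemma edge_pr {E : Finset (Fin (1 + 1) → ZMod m)} {a b : ZMod m} (h : pr a b ∈ E) :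
    Walk E (vx a) (vx b) b 1 b := by
  have := Walk.single _ h
  rw [init_pr, tail_pr] at this
  exact this

lemma cast_ne_one {i : ℕ} (h2 : 2 ≤ i) (hi : i ≤ m) (hm : 3 ≤ m) : (i : ZMod m) ≠ 1 := by
  intro h
  have h1 : ((1 : ℕ) : ZMod m) = 1 := by simp
  rw [← h1, ZMod.natCast_eq_natCast_iff'] at h
  rcases Nat.lt_or_ge i m with h3 | h3
  · rw [Nat.mod_eq_of_lt h3, Nat.mod_eq_of_lt (by omega)] at h
    omega
  · have : i = m := by omega
    subst this
    rw [Nat.mod_self, Nat.mod_eq_of_lt (by omega)] at h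
    omega

lemma cast_ne_zero' {i : ℕ} (h2 : 1 ≤ i) (hi : i < m) : (i : ZMod m) ≠ 0 := by
  intro h
  rw [ZMod.natCast_eq_zero_iff] at h
  exact absurd (Nat.le_of_dvd (by omega) h) (by omega)

lemma walk_up (hm : 3 ≤ m) (i k : ℕ) (h2 : 2 ≤ i) (hk : i + k ≤ m) :
    ∃ S, Walk (cyc m) (vx (i : ZMod m)) (vx ((i + k : ℕ) : ZMod m))
      (((∑ t ∈ Finset.range k, (i + 1 + t) : ℕ)) : ZMod m) (k : ZMod m) S := by
  induction k with
  | zero => exact ⟨0, (Walk.nil _).cast (by simp) (by simp) rfl⟩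
  | succ k ih =>
    obtain ⟨S, w⟩ := ih (by omega)
    have hmem : pr ((i + k : ℕ) : ZMod m) ((i + (k + 1) : ℕ) : ZMod m) ∈ cyc m := by
      refine mem_cyc.2 ⟨((i + k : ℕ) : ZMod m), cast_ne_one (by omega) (by omega) hm, ?_⟩
      rw [nx_of_ne (cast_ne_zero' (by omega) (by omega)) (cast_ne_one (by omega) (by omega) hm)]
      have : ((i + k : ℕ) : ZMod m) + 1 = ((i + (k + 1) : ℕ) : ZMod m) := by push_cast; ring
      rw [this]
    refine ⟨_, (w.trans (edge_pr hmem)).cast ?_ (by push_cast; ring) rfl⟩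
    rw [Finset.sum_range_succ]
    push_cast
    ring

lemma exists_rep (hm : 3 ≤ m) {a : ZMod m} (ha : a ≠ 1) :
    ∃ i : ℕ, 2 ≤ i ∧ i ≤ m ∧ (i : ZMod m) = a := by
  by_cases h0 : a = 0
  · exact ⟨m, by omega, le_rfl, by rw [h0]; simp⟩
  · refine ⟨a.val, ?_, (ZMod.val_lt a).le, ZMod.natCast_zmod_val a⟩
    by_contra h
    have h3 : a.val = 0 ∨ a.val = 1 := by omega
    rcases h3 with h3 | h3
    · exact h0 ((ZMod.val_eq_zero a).1 h3)
    · apply ha
      rw [← ZMod.natCast_zmod_val a, h3]; simp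

lemma zero_two_mem (hm : 3 ≤ m) : pr 0 2 ∈ cyc m := by
  refine mem_cyc.2 ⟨0, ?_, by rw [nx_zero]⟩
  have := cast_ne_one (m := m) (i := m) (by omega) le_rfl hm
  simpa using this

lemma cyc_to (hm : 3 ≤ m) {a : ZMod m} (ha : a ≠ 1) :
    ∃ s n S, Walk (cyc m) (vx a) (vx 0) s n S := by
  obtain ⟨i, h1, h2, rfl⟩ := exists_rep hm ha
  obtain ⟨S, w⟩ := walk_up hm i (m - i) h1 (by omega)
  have : ((i + (m - i) : ℕ) : ZMod m) = 0 := by
    rw [Nat.add_sub_cancel' h2]; simp
  rw [this] at w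
  exact ⟨_, _, _, w⟩

lemma cyc_from (hm : 3 ≤ m) {a : ZMod m} (ha : a ≠ 1) :
    ∃ s n S, Walk (cyc m) (vx 0) (vx a) s n S := by
  obtain ⟨i, h1, h2, rfl⟩ := exists_rep hm ha
  obtain ⟨S, w⟩ := walk_up hm 2 (i - 2) le_rfl (by omega)
  have : ((2 + (i - 2) : ℕ) : ZMod m) = i := by
    rw [Nat.add_sub_cancel' h1]
  rw [this] at w
  exact ⟨_, _, _, (edge_pr (zero_two_mem hm)).trans w⟩

/-- the closed walk around the cycle -/
lemma cyc_around (hm : 3 ≤ m) : ∃ c S : ZMod m, 2 * c = -2 ∧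
    (∀ h : ℕ, m = 2 * h → c = (h : ZMod m) - 1) ∧ Walk (cyc m) (vx 0) (vx 0) c (-1) S := by
  obtain ⟨S, w⟩ := walk_up hm 2 (m - 2) le_rfl (by omega)
  have h0 : ((2 + (m - 2) : ℕ) : ZMod m) = 0 := by
    rw [Nat.add_sub_cancel' (by omega)]; simp
  rw [h0] at w
  have hs : ∀ k : ℕ, 2 * ∑ t ∈ Finset.range k, (2 + 1 + t) = k * (k + 5) := by
    intro k
    induction k with
    | zero => simp
    | succ k ih => rw [Finset.sum_range_succ, mul_add, ih]; ring
  have hm2 : ((m - 2 : ℕ) : ZMod m) = -2 := by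
    rw [Nat.cast_sub (by omega)]; simp
  have hs2 : (2 : ZMod m) * ((∑ t ∈ Finset.range (m - 2), (2 + 1 + t) : ℕ) : ZMod m) = -6 := by
    have := congrArg (Nat.cast (R := ZMod m)) (hs (m - 2))
    rw [Nat.cast_mul, Nat.cast_mul, Nat.cast_add, hm2] at this
    rw [Nat.cast_ofNat] at this
    rw [this]
    norm_num
  refine ⟨2 + ((∑ t ∈ Finset.range (m - 2), (2 + 1 + t) : ℕ) : ZMod m), _, ?_, ?_,
    ((edge_pr (zero_two_mem hm)).trans w).cast rfl ?_ rfl⟩
  · rw [mul_add, hs2]; norm_num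
  · intro h hh
    have h3 : ∑ t ∈ Finset.range (m - 2), (2 + 1 + t) + 3 = h * (m + 1) := by
      have h4 := hs (m - 2)
      have h5 : m - 2 + 2 = m := by omega
      have h6 : m - 2 + 5 = m + 3 := by omega
      rw [h6] at h4
      obtain ⟨g, rfl⟩ : ∃ g, h = g + 1 := ⟨h - 1, by omega⟩
      have h7 : m - 2 = 2 * g := by omega
      rw [h7] at h4 ⊢
      subst hh
      nlinarith
    have h8 := congrArg (Nat.cast (R := ZMod m)) h3
    rw [Nat.cast_add, Nat.cast_mul, Nat.cast_add, ZMod.natCast_self] at h8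
    rw [Nat.cast_ofNat, Nat.cast_one] at h8
    linear_combination h8
  · rw [hm2]; ring

lemma pr_self_notMem (hm : 3 ≤ m) (a : ZMod m) : pr a a ∉ cyc m := by
  intro h
  obtain ⟨b, hb, h1⟩ := mem_cyc.1 h
  rw [pr_inj] at h1
  obtain ⟨rfl, h2⟩ := h1
  by_cases h0 : b = 0
  · subst h0
    rw [nx_zero] at h2
    exact cast_ne_zero' (m := m) (i := 2) (by omega) (by omega) (by simpa using h2)
  · rw [nx_of_ne h0 hb] at h2
    have : (1 : ZMod m) = 0 := by linear_combination h2
    exact cast_ne_zero' (m := m) (i := 1) (by omega) (by omega) (by simpa using this)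

lemma pr_self (a : ZMod m) : (fun _ => a : Fin (1 + 1) → ZMod m) = pr a a := by
  funext i
  fin_cases i <;> rfl

lemma core_a (hm : 3 ≤ m) : Core m 1 m := by
  obtain ⟨c, S, hc, hc', w⟩ := cyc_around hm
  -- the position of the loop
  have hex : ∃ a i : ZMod m, a ≠ 0 ∧ a ≠ 1 ∧ (c + a) * i = 1 := by
    rcases Nat.even_or_odd' m with ⟨h, hh | hh⟩
    · refine ⟨(h : ZMod m), -1, cast_ne_zero' (by omega) (by omega),
        cast_ne_one (by omega) (by omega) hm, ?_⟩
      rw [hc' h hh]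
      have : (2 : ZMod m) * h = 0 := by
        have := congrArg (Nat.cast (R := ZMod m)) hh
        rw [ZMod.natCast_self] at this
        push_cast at this
        exact this.symm
      linear_combination -this
    · refine ⟨(2 : ℕ), 1, cast_ne_zero' (by omega) (by omega),
        cast_ne_one (by omega) (by omega) hm, ?_⟩
      have : (2 : ZMod m) * h + 1 = 0 := by
        have := congrArg (Nat.cast (R := ZMod m)) hh
        rw [ZMod.natCast_self] at this
        push_cast at this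
        exact this.symm
      push_cast
      -- `c + 1 = 0` because `2 (c + 1) = 0` and `2` is invertible
      linear_combination (c + 1) * this - h * hc
  obtain ⟨a, i, ha0, ha1, hi⟩ := hex
  obtain ⟨e1, e2, e3⟩ := add_loops (E := cyc m) {a}
    (fun c hc => by
      rw [Finset.mem_singleton] at hc
      subst hc
      exact V_cyc.2 ha1)
    (fun c _ => by rw [pr_self]; exact pr_self_notMem hm c) bal_cyc
  refine ⟨_, ?_, e2, ?_, ?_, ?_⟩
  · rw [e1, card_cyc, Finset.card_singleton]; omega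
  · -- closed walks at `a`
    obtain ⟨s1, n1, S1, w1⟩ := cyc_to hm ha1
    obtain ⟨s2, n2, S2, w2⟩ := cyc_from hm ha1
    have hsub : cyc m ⊆ cyc m ∪ loops 1 {a} := Finset.subset_union_left
    have wl : Walk (cyc m ∪ loops 1 {a}) (vx a) (vx a) a 1 a := by
      apply edge_pr
      rw [← pr_self]
      exact Finset.mem_union_right _ (const_mem_loops.2 (Finset.mem_singleton_self a))
    -- closed walks at `0`
    have v1 := ((w2.mono hsub).trans wl).trans (w1.mono hsub)
    have v2 := (w2.mono hsub).trans (w1.mono hsub)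
    obtain ⟨S3, v3⟩ := v2.pow' (m - 1)
    have hm1 : ((m - 1 : ℕ) : ZMod m) = -1 := by
      rw [Nat.cast_sub (by omega)]; simp
    rw [hm1] at v3
    refine c2_of_det (vx 0) ?_ ?_ (w.mono hsub) (v1.trans v3) (i := i) ?_
    · intro u hu
      obtain ⟨b, rfl⟩ := exists_vx u
      rw [e3, V_cyc] at hu
      obtain ⟨s, n, S, w⟩ := cyc_to hm hu
      exact ⟨s, n, S, w.mono hsub⟩
    · intro u hu
      obtain ⟨b, rfl⟩ := exists_vx u
      rw [e3, V_cyc] at hu
      obtain ⟨s, n, S, w⟩ := cyc_from hm hu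
      exact ⟨s, n, S, w.mono hsub⟩
    · linear_combination hi
  · rw [Finset.mem_union, not_or]
    constructor
    · rw [pr_self]; exact pr_self_notMem hm 0
    · rw [const_mem_loops, Finset.mem_singleton]
      exact ha0.symm
  · rw [e3]
    refine V_cyc.2 ?_
    have := cast_ne_one (m := m) (i := m) (by omega) le_rfl hm
    simpa using this

/-- the two edges between `0` and `1` -/
lemma bal_pair (hm : 3 ≤ m) : Bal ({pr 0 1, pr 1 0} : Finset (Fin (1 + 1) → ZMod m)) := by
  intro v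
  have h01 : (0 : ZMod m) ≠ 1 := by
    have := cast_ne_one (m := m) (i := m) (by omega) le_rfl hm
    simpa using this
  refine Finset.card_nbij' (fun e => pr (e 1) (e 0)) (fun e => pr (e 1) (e 0)) ?_ ?_ ?_ ?_
  · intro e he
    simp only [coe_filter, Set.mem_ofPred_eq, Finset.mem_insert, Finset.mem_singleton] at he ⊢
    obtain ⟨rfl | rfl, h2⟩ := he
    · exact ⟨Or.inr rfl, by rw [init_pr] at h2; rw [tail_pr]; exact h2⟩
    · exact ⟨Or.inl rfl, by rw [init_pr] at h2; rw [tail_pr]; exact h2⟩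
  · intro e he
    simp only [coe_filter, Set.mem_ofPred_eq, Finset.mem_insert, Finset.mem_singleton] at he ⊢
    obtain ⟨rfl | rfl, h2⟩ := he
    · exact ⟨Or.inr rfl, by rw [tail_pr] at h2; rw [init_pr]; exact h2⟩
    · exact ⟨Or.inl rfl, by rw [tail_pr] at h2; rw [init_pr]; exact h2⟩
  · intro e he
    simp only [coe_filter, Set.mem_ofPred_eq, Finset.mem_insert, Finset.mem_singleton] at he
    obtain ⟨rfl | rfl, h2⟩ := he <;> rfl
  · intro e he
    simp only [coe_filter, Set.mem_ofPred_eq, Finset.mem_insert, Finset.mem_singleton] at he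
    obtain ⟨rfl | rfl, h2⟩ := he <;> rfl

lemma core_b (hm : 3 ≤ m) : Core m 1 (m + 1) := by
  obtain ⟨c, S, hc, hc', w⟩ := cyc_around hm
  have h01 : (0 : ZMod m) ≠ 1 := by
    have := cast_ne_one (m := m) (i := m) (by omega) le_rfl hm
    simpa using this
  have h12 : (2 : ZMod m) ≠ 1 := by
    have := cast_ne_one (m := m) (i := 2) (by omega) (by omega) hm
    simpa using this
  have hd : Disjoint (cyc m) ({pr 0 1, pr 1 0} : Finset (Fin (1 + 1) → ZMod m)) := by
    rw [Finset.disjoint_right]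
    intro e he h
    obtain ⟨a, ha, hae⟩ := mem_cyc.1 h
    simp only [Finset.mem_insert, Finset.mem_singleton] at he
    rcases he with rfl | rfl
    · rw [pr_inj] at hae
      obtain ⟨rfl, h2⟩ := hae
      rw [nx_zero] at h2
      exact h12 h2
    · rw [pr_inj] at hae
      exact ha hae.1
  set E := cyc m ∪ {pr 0 1, pr 1 0} with hE
  have hsub : cyc m ⊆ E := Finset.subset_union_left
  have hx : Walk E (vx 0) (vx 1) 1 1 1 := edge_pr (by rw [hE]; simp)
  have hy : Walk E (vx 1) (vx 0) 0 1 0 := edge_pr (by rw [hE]; simp)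
  refine ⟨E, ?_, bal_cyc.union (bal_pair hm) hd, ?_, ?_, ?_⟩
  · rw [hE, Finset.card_union_of_disjoint hd, card_cyc, Finset.card_pair]
    · omega
    · intro h
      exact h01 (pr_inj.1 h).1
  · refine c2_of_det (vx 0) ?_ ?_ (w.mono hsub) (hx.trans hy) (i := -1) ?_
    · intro u hu
      obtain ⟨b, rfl⟩ := exists_vx u
      by_cases hb : b = 1
      · subst hb
        exact ⟨_, _, _, hy⟩
      · obtain ⟨s, n, S, w⟩ := cyc_to hm hb
        exact ⟨s, n, S, w.mono hsub⟩
    · intro u hu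
      obtain ⟨b, rfl⟩ := exists_vx u
      by_cases hb : b = 1
      · subst hb
        exact ⟨_, _, _, hx⟩
      · obtain ⟨s, n, S, w⟩ := cyc_from hm hb
        exact ⟨s, n, S, w.mono hsub⟩
    · linear_combination -hc
  · rw [hE, Finset.mem_union, not_or]
    constructor
    · rw [pr_self]; exact pr_self_notMem hm 0
    · rw [pr_self]
      simp only [Finset.mem_insert, Finset.mem_singleton, not_or]
      exact ⟨fun h => h01 (pr_inj.1 h).2, fun h => h01 (pr_inj.1 h).1⟩
  · exact ⟨pr 0 1, by rw [hE]; simp, init_pr _ _⟩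

/-- cores of all sizes -/
lemma core_all (hm : 3 ≤ m) : ∀ d q : ℕ, m ^ d ≤ q → q < m ^ (d + 1) → ¬ (d = 0 ∧ q = 1) →
    Core m d q := by
  intro d
  induction d with
  | zero =>
    intro q h1 h2 h3
    rw [pow_zero] at h1
    rw [zero_add, pow_one] at h2
    obtain ⟨E, e1, e2, e3, e4, e5, e6⟩ := level_one (m := m) (q := q) h1 h2.le
    exact ⟨E, e1, e2, e6 (by omega), e5 h2, e4⟩
  | succ d ih =>
    intro q h1 h2 h3
    have hmpos : 0 < m := by omega
    have hq : m * (q / m) + q % m = q := Nat.div_add_mod q m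
    have hr : q % m < m := Nat.mod_lt _ hmpos
    have hlo : m ^ d ≤ q / m := by
      rw [Nat.le_div_iff_mul_le hmpos, ← pow_succ]; exact h1
    have hhi : q / m < m ^ (d + 1) := by
      rw [Nat.div_lt_iff_lt_mul hmpos, ← pow_succ]; exact h2
    by_cases hc : d = 0 ∧ q / m = 1
    · obtain ⟨rfl, hc⟩ := hc
      rw [hc, mul_one] at hq
      rcases Nat.lt_or_ge (q % m) 2 with h | h
      · have h' : q % m = 0 ∨ q % m = 1 := by omega
        rcases h' with h' | h'
        · rw [← hq, h', add_zero]; exact core_a hm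
        · rw [← hq, h']; exact core_b hm
      · rw [← hq]; exact core_c h hr
    · rw [← hq]
      exact (ih _ hlo hhi hc).step hr

/-- connected balanced sets of every size on the right level -/
lemma sets_all (hm : 3 ≤ m) (d q : ℕ) (h1 : 1 ≤ q) (h2 : q ≤ m ^ (d + 1))
    (h3 : d = 0 ∨ m ^ d < q) :
    ∃ E : Finset (Fin (d + 1) → ZMod m), E.card = q ∧ Bal E ∧ C1 E := by
  rcases d with _ | d
  · obtain ⟨E, e1, e2, e3, _⟩ := level_one (m := m) (q := q) h1 (by simpa using h2)
    exact ⟨E, e1, e2, e3⟩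
  have h3' : m ^ (d + 1) < q := by
    rcases h3 with h | h
    · omega
    · exact h
  have hmpos : 0 < m := by omega
  obtain ⟨p, rfl⟩ : ∃ p, q = p + 1 := ⟨q - 1, by omega⟩
  have hp : m * (p / m) + p % m = p := Nat.div_add_mod p m
  have hr : p % m < m := Nat.mod_lt _ hmpos
  have hlo : m ^ d ≤ p / m := by
    rw [Nat.le_div_iff_mul_le hmpos, ← pow_succ]; omega
  have hhi : p / m < m ^ (d + 1) := by
    rw [Nat.div_lt_iff_lt_mul hmpos, ← pow_succ]; omega
  -- the base set
  have hbase : ∃ E : Finset (Fin (d + 1) → ZMod m), E.card = p / m ∧ Bal E ∧ C1 E ∧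
      (fun _ => 0) ∉ E ∧ V E (fun _ => 0) := by
    by_cases hc : d = 0 ∧ p / m = 1
    · obtain ⟨rfl, hc⟩ := hc
      obtain ⟨E, e1, e2, e3, e4, e5, _⟩ := level_one (m := m) (q := 1) le_rfl (by omega)
      exact ⟨E, by rw [e1, hc], e2, e3, e5 (by omega), e4⟩
    · obtain ⟨E, e1, e2, e3, e4, e5⟩ := core_all hm d _ hlo hhi hc
      exact ⟨E, e1, e2, e3.c1, e4, e5⟩
  obtain ⟨E, e1, e2, e3, e4, e5⟩ := hbase
  obtain ⟨f1, f2, f3⟩ := add_loops (seg m (p % m + 1)) (fun c _ => V_lift_const e5 c)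
    (fun c _ => const_notMem_lift e4 c) e2.lift
  refine ⟨_, ?_, f2, (e3.lift.mono Finset.subset_union_left f3).c1 ?_⟩
  · rw [f1, card_lift, e1, card_seg (by omega)]; omega
  · exact Finset.mem_union_right _ (const_mem_loops.2 (one_mem_seg (by omega)))

end

end Pool.Agent.T2h50.DB
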