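import Mathlib

set_option autoImplicit false

/-!
# Eulerian circuits for finite families of arrows

`s, t : τ → V` are the source and the target of the arrows `x : τ`.
-/

namespace Pool.Agent.T2h50.DB

open Equiv

section
variable {τ V : Type} [Fintype τ] [DecidableEq τ] [DecidableEq V]

/-- merging two cycles of a permutation -/
lemma merge (π : Perm τ) (a b : τ) (hab : ¬ π.SameCycle a b) :
    (∀ y, π.SameCycle a y → (π * swap a b).SameCycle a y) ∧ (π * swap a b).SameCycle a b := by
  set π' := π * swap a b with hπ'
  have ea : π' a = π b := by simp [hπ']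
  have eb : π' b = π a := by simp [hπ']
  have eo : ∀ z, z ≠ a → z ≠ b → π' z = π z := by
    intro z h1 h2
    simp [hπ', swap_apply_of_ne_of_ne h1 h2]
  have h1 : ∀ k : ℕ, π'.SameCycle b ((π ^ k) (π a)) := by
    intro k
    induction k with
    | zero =>
      simp only [pow_zero, Perm.coe_one, id_eq]
      rw [← eb]
      exact ⟨1, by simp⟩
    | succ k ih =>
      set z := (π ^ k) (π a) with hz
      have hz2 : (π ^ (k + 1)) (π a) = π z := by
        rw [pow_succ', Perm.mul_apply]
      rw [hz2]
      have hzb : z ≠ b := by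
        intro h
        apply hab
        refine ⟨(k : ℤ) + 1, ?_⟩
        rw [← h, hz, zpow_add, zpow_one, zpow_natCast, Perm.mul_apply]
      by_cases hza : z = a
      · rw [hza, ← eb]
        exact ⟨1, by simp⟩
      · rw [← eo z hza hzb]
        exact ih.trans ⟨1, by simp⟩
  have h2 : ∀ y, π.SameCycle a y → π'.SameCycle b y := by
    intro y hy
    have h3 : π.SameCycle (π a) y := (Perm.sameCycle_apply_left).2 hy
    obtain ⟨k, _, hk⟩ := h3.exists_pow_eq'
    rw [← hk]
    exact h1 k
  have h3 : π'.SameCycle b a := h2 a (Perm.SameCycle.refl _ _)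
  exact ⟨fun y hy => h3.symm.trans (h2 y hy), h3.symm⟩

theorem euler [Nonempty τ] (s t : τ → V)
    (hbal : ∀ v, Fintype.card {x // s x = v} = Fintype.card {x // t x = v})
    (hconn : ∀ x y, Relation.ReflTransGen (fun a b => t a = s b) x y) :
    ∃ π : Perm τ, (∀ x, t x = s (π x)) ∧ ∀ x y, π.SameCycle x y := by
  classical
  -- some permutation
  have hex : ∃ π : Perm τ, ∀ x, t x = s (π x) := by
    have he : ∀ v, Nonempty ({x // t x = v} ≃ {x // s x = v}) := fun v =>
      Fintype.card_eq.1 (hbal v).symm
    refine ⟨(Equiv.sigmaFiberEquiv t).symm.trans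
      ((Equiv.sigmaCongrRight fun v => (he v).some).trans (Equiv.sigmaFiberEquiv s)), ?_⟩
    exact fun x => ((he (t x)).some ⟨x, rfl⟩).2.symm
  obtain ⟨x0⟩ := ‹Nonempty τ›
  -- maximal cycle
  set S : Finset (Perm τ) := Finset.univ.filter fun π => ∀ x, t x = s (π x) with hS
  have hSne : S.Nonempty := by
    obtain ⟨π, hπ⟩ := hex
    exact ⟨π, by simp [hS, hπ]⟩
  obtain ⟨π, hπS, hmax⟩ := Finset.exists_max_image S
    (fun π => (Finset.univ.filter fun y => π.SameCycle x0 y).card) hSne
  have hπ : ∀ x, t x = s (π x) := by simpa [hS] using hπS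
  refine ⟨π, hπ, ?_⟩
  have hall : ∀ y, π.SameCycle x0 y := by
    by_contra hcon
    push Not at hcon
    obtain ⟨y, hy⟩ := hcon
    -- a step that leaves the cycle
    have hstep : ∃ a b, π.SameCycle x0 a ∧ ¬ π.SameCycle x0 b ∧ t a = s b := by
      by_contra hno
      push Not at hno
      apply hy
      have : ∀ z, Relation.ReflTransGen (fun a b => t a = s b) x0 z → π.SameCycle x0 z := by
        intro z hz
        induction hz with
        | refl => exact Perm.SameCycle.refl _ _
        | tail _ hbc ih =>
          by_contra hc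
          exact hno _ _ ih hc hbc
      exact this y (hconn x0 y)
    obtain ⟨a, b, ha, hb, hab⟩ := hstep
    set b' := π.symm b with hb'
    have hπb' : π b' = b := by simp [hb']
    have hb'n : ¬ π.SameCycle x0 b' := by
      intro h
      apply hb
      rw [← hπb']
      exact h.trans ⟨1, by simp⟩
    have hab' : ¬ π.SameCycle a b' := fun h => hb'n (ha.trans h)
    obtain ⟨m1, m2⟩ := merge π a b' hab'
    have hval : π * swap a b' ∈ S := by
      rw [hS, Finset.mem_filter]
      refine ⟨Finset.mem_univ _, fun x => ?_⟩
      by_cases h1 : x = a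
      · subst h1
        simp only [Perm.mul_apply, swap_apply_left]
        rw [hπb']; exact hab
      · by_cases h2 : x = b'
        · subst h2
          simp only [Perm.mul_apply, swap_apply_right]
          rw [← hπ a, hab, hπ b', hπb']
        · simp only [Perm.mul_apply, swap_apply_of_ne_of_ne h1 h2]
          exact hπ x
    have hle := hmax _ hval
    have hlt : (Finset.univ.filter fun y => π.SameCycle x0 y).card <
        (Finset.univ.filter fun y => (π * swap a b').SameCycle x0 y).card := by
      apply Finset.card_lt_card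
      rw [Finset.ssubset_iff_of_subset]
      · refine ⟨b', ?_, ?_⟩
        · rw [Finset.mem_filter]
          exact ⟨Finset.mem_univ _, ((m1 x0 ha.symm).symm).trans m2⟩
        · rw [Finset.mem_filter]
          exact fun h => hb'n h.2
      · intro z hz
        rw [Finset.mem_filter] at hz ⊢
        refine ⟨Finset.mem_univ _, ?_⟩
        have h1 := m1 z (ha.symm.trans hz.2)
        exact ((m1 x0 ha.symm).symm).trans h1
    omega
  intro x y
  exact (hall x).symm.trans (hall y)

/-- cyclic enumeration of the arrows -/
theorem euler_enum [Nonempty τ] (s t : τ → V)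
    (hbal : ∀ v, Fintype.card {x // s x = v} = Fintype.card {x // t x = v})
    (hconn : ∀ x y, Relation.ReflTransGen (fun a b => t a = s b) x y) (n : ℕ) [NeZero n]
    (hn : Fintype.card τ = n) :
    ∃ f : ZMod n → τ, Function.Bijective f ∧ ∀ i, t (f i) = s (f (i + 1)) := by
  obtain ⟨π, h1, h2⟩ := euler s t hbal hconn
  obtain ⟨x0⟩ := ‹Nonempty τ›
  have hcyc : π.IsCycleOn (Finset.univ : Finset τ) := by
    refine ⟨?_, fun x _ y _ => h2 x y⟩
    simp only [Finset.coe_univ]
    exact Set.bijOn_univ.2 π.bijective
  have hcard : (Finset.univ : Finset τ).card = n := by rw [Finset.card_univ, hn]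
  have hp : ∀ k : ℕ, (π ^ k) x0 = x0 ↔ n ∣ k := by
    intro k
    rw [hcyc.pow_apply_eq (Finset.mem_univ x0), hcard]
  refine ⟨fun i => (π ^ i.val) x0, ?_, ?_⟩
  · have hinj : Function.Injective fun i : ZMod n => (π ^ i.val) x0 := by
      have key : ∀ i j : ZMod n, i.val ≤ j.val → (π ^ i.val) x0 = (π ^ j.val) x0 → i = j := by
        intro i j hij h
        have h3 : (π ^ (j.val - i.val)) x0 = x0 := by
          have : (π ^ j.val) x0 = (π ^ i.val) ((π ^ (j.val - i.val)) x0) := by
            rw [← Perm.mul_apply, ← pow_add]
            congr 2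
            omega
          rw [this] at h
          exact ((π ^ i.val).injective h).symm
        rw [hp] at h3
        have h4 : j.val < n := ZMod.val_lt j
        have h5 : j.val - i.val = 0 := Nat.eq_zero_of_dvd_of_lt h3 (by omega)
        exact ZMod.val_injective n (by omega)
      intro i j h
      rcases le_total i.val j.val with h3 | h3
      · exact key i j h3 h
      · exact (key j i h3 h.symm).symm
    rw [Fintype.bijective_iff_injective_and_card]
    exact ⟨hinj, by rw [ZMod.card, hn]⟩
  · intro i
    simp only
    rw [h1, ← Perm.mul_apply, ← pow_succ']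
    congr 1
    -- (i+1).val ≡ i.val + 1
    have h3 : (i + 1).val = (i.val + 1) % n := by
      rw [ZMod.val_add]
      rcases Nat.lt_or_ge 1 n with h | h
      · haveI : Fact (1 < n) := ⟨h⟩
        rw [ZMod.val_one]
      · have : n = 1 := by
          have := NeZero.pos n
          omega
        subst this
        simp [Nat.mod_one]
    rw [h3]
    have h4 : (π ^ (i.val + 1)) x0 = (π ^ ((i.val + 1) % n)) ((π ^ (n * ((i.val + 1) / n))) x0) := by
      rw [← Perm.mul_apply, ← pow_add, Nat.mod_add_div]
    rw [h4, (hp _).2 (Dvd.intro _ rfl)]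

end

end Pool.Agent.T2h50.DB
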