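import Pool.Agent.T2h50.DB.Core
import Pool.Agent.T2h50.DB.Euler

set_option autoImplicit false
set_option linter.unusedSectionVars false

/-!
# Balanced cyclic sequences with few repeated words
-/

namespace Pool.Agent.T2h50.DB

open Finset

section
variable {m : ℕ} [NeZero m]

lemma rtg_of_walk {d : ℕ} {τ : Type} (word : τ → Fin (d + 1) → ZMod m)
    {E : Finset (Fin (d + 1) → ZMod m)} (hE : ∀ e ∈ E, ∃ x, word x = e)
    {u v : Fin d → ZMod m} {s n S : ZMod m} (w : Walk E u v s n S) :
    ∀ x y : τ, Fin.tail (word x) = u → Fin.init (word y) = v →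
      Relation.ReflTransGen (fun a b => Fin.tail (word a) = Fin.init (word b)) x y := by
  induction w with
  | nil u =>
    intro x y hx hy
    exact Relation.ReflTransGen.single (hx.trans hy.symm)
  | cons e he w ih =>
    intro x y hx hy
    obtain ⟨z, hz⟩ := hE e he
    refine Relation.ReflTransGen.head (b := z) ?_ (ih z y (by rw [hz]) hy)
    rw [hz]; exact hx

/-- an Eulerian family of words gives a cyclic sequence -/
lemma cyc_tokens {d : ℕ} {τ : Type} [Fintype τ] [DecidableEq τ] [Nonempty τ]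
    (word : τ → Fin (d + 1) → ZMod m)
    (hbal : ∀ v, Nat.card {x // Fin.init (word x) = v} = Nat.card {x // Fin.tail (word x) = v})
    (hconn : ∀ x y, Relation.ReflTransGen
      (fun a b => Fin.tail (word a) = Fin.init (word b)) x y)
    (n : ℕ) [NeZero n] (hn : Nat.card τ = n) :
    ∃ (a : ZMod n → ZMod m) (f : ZMod n → τ), Function.Bijective f ∧
      ∀ (i : ZMod n) (j : Fin (d + 1)), a (i + (j : ℕ)) = word (f i) j := by
  classical
  obtain ⟨f, hf, h⟩ := euler_enum (fun x => Fin.init (word x)) (fun x => Fin.tail (word x))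
    (fun v => by
      have := hbal v
      rwa [Nat.card_eq_fintype_card, Nat.card_eq_fintype_card] at this) hconn n
    (by rw [← Nat.card_eq_fintype_card]; exact hn)
  refine ⟨fun i => word (f i) 0, f, hf, ?_⟩
  have key : ∀ (j : ℕ) (hj : j < d + 1) (i : ZMod n),
      word (f (i + (j : ℕ))) 0 = word (f i) ⟨j, hj⟩ := by
    intro j
    induction j with
    | zero => intro _ i; simp
    | succ j ih =>
      intro hj i
      have h1 := ih (by omega) (i + 1)
      have h2 := congrFun (h i) ⟨j, by omega⟩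
      have h3 : i + 1 + ((j : ℕ) : ZMod n) = i + ((j + 1 : ℕ) : ZMod n) := by
        push_cast; ring
      rw [h3] at h1
      rw [h1]
      exact h2.symm
  intro i j
  exact key j.1 j.2 i

lemma card_sub {d : ℕ} (E : Finset (Fin (d + 1) → ZMod m))
    (P : (Fin (d + 1) → ZMod m) → Prop) [DecidablePred P] :
    Nat.card {x : E // P x.1} = (E.filter P).card := by
  rw [Nat.card_congr (Equiv.subtypeSubtypeEquivSubtypeInter (fun x => x ∈ E) P)]
  exact Nat.subtype_card (E.filter P) (by simp)

lemma bal_card {d : ℕ} {E : Finset (Fin (d + 1) → ZMod m)} (hB : Bal E) (v : Fin d → ZMod m) :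
    Nat.card {x : E // Fin.init x.1 = v} = Nat.card {x : E // Fin.tail x.1 = v} := by
  rw [card_sub E (fun e => Fin.init e = v), card_sub E (fun e => Fin.tail e = v), hB v]

/-- the simple case: all words of length `p + 2` distinct -/
lemma stage_one (hm : 3 ≤ m) (p q : ℕ) (h1 : 1 ≤ q) (h2 : q ≤ m ^ (p + 1)) :
    ∃ a : ZMod (m * q) → ZMod m, (∀ c, Nat.card {i // a i = c} = q) ∧
      Function.Injective (fun (i : ZMod (m * q)) (j : Fin (p + 2)) => a (i + (j : ℕ))) := by
  classical
  -- the level
  obtain ⟨d, hd1, hd2, hd3⟩ : ∃ d, d ≤ p ∧ q ≤ m ^ (d + 1) ∧ (d = 0 ∨ m ^ d < q) := by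
    have hex : ∃ d, q ≤ m ^ (d + 1) := ⟨p, h2⟩
    refine ⟨Nat.find hex, Nat.find_min' hex h2, Nat.find_spec hex, ?_⟩
    by_cases h : Nat.find hex = 0
    · exact Or.inl h
    · right
      have := Nat.find_min hex (m := Nat.find hex - 1) (by omega)
      rw [Nat.sub_add_cancel (by omega)] at this
      omega
  obtain ⟨E, e1, e2, e3⟩ := sets_all hm d q h1 hd2 hd3
  have hcard : Nat.card (lift E) = m * q := by
    rw [Nat.card_eq_fintype_card, Fintype.card_coe, card_lift, e1]
  have : NeZero (m * q) := ⟨by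
    have : 0 < m * q := Nat.mul_pos (by omega) (by omega)
    omega⟩
  have hne : (lift E).Nonempty := by
    rw [← Finset.card_pos, card_lift, e1]
    exact Nat.mul_pos (by omega) (by omega)
  have : Nonempty (lift E) := hne.to_subtype
  obtain ⟨a, f, hf, h⟩ := cyc_tokens (τ := lift E) (fun x => x.1) (bal_card e2.lift)
    (by
      intro x y
      obtain ⟨s, n, S, w⟩ := e3.lift _ _ (e2.lift.tail_mem x.2) ⟨y.1, y.2, rfl⟩
      exact rtg_of_walk (fun x : lift E => x.1) (fun e he => ⟨⟨e, he⟩, rfl⟩) w x y rfl rfl)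
    (m * q) hcard
  refine ⟨a, ?_, ?_⟩
  · intro c
    have h3 : ∀ i, a i = (f i).1 0 := by
      intro i
      have := h i 0
      simpa using this
    have h4 : Nat.card {i // a i = c} = Nat.card {x : lift E // x.1 0 = c} :=
      Nat.card_congr ((Equiv.ofBijective f hf).subtypeEquiv (fun i => by rw [h3 i]; rfl))
    rw [h4, card_sub (lift E) (fun e => e 0 = c), card_lift_first, e1]
  · intro i i' hii
    apply hf.1
    apply Subtype.ext
    funext j
    rw [← h i j, ← h i' j]
    exact congrFun hii ⟨j.1, by have := j.2; omega⟩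

lemma lift_univ (d : ℕ) : lift (univ : Finset (Fin (d + 1) → ZMod m)) = univ := by
  ext x; simp [mem_lift]

lemma bal_univ (d : ℕ) : Bal (univ : Finset (Fin (d + 1) → ZMod m)) := by
  induction d with
  | zero => exact bal_zero _
  | succ d ih => rw [← lift_univ]; exact ih.lift

lemma c1_univ (d : ℕ) : C1 (univ : Finset (Fin (d + 1) → ZMod m)) := by
  induction d with
  | zero => exact (c0_zero _).c1 (Finset.mem_univ _)
  | succ d ih =>
    have := ih.lift
    rw [lift_univ] at this
    exact this.c1 (Finset.mem_univ _)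

lemma V_univ {d : ℕ} (v : Fin d → ZMod m) : V (univ : Finset (Fin (d + 1) → ZMod m)) v :=
  ⟨Fin.snoc v 0, Finset.mem_univ _, Fin.init_snoc _ _⟩

lemma card_univ_sub {d : ℕ} (P : (Fin (d + 1) → ZMod m) → Prop) [DecidablePred P] :
    Nat.card {x // P x} = (univ.filter P).card :=
  Nat.subtype_card (univ.filter P) (by simp)

lemma card_univ_first (d : ℕ) (c : ZMod m) :
    Nat.card {x : Fin (d + 2) → ZMod m // x 0 = c} = m ^ (d + 1) := by
  classical
  rw [card_univ_sub, ← lift_univ, card_lift_first, Finset.card_univ, Fintype.card_fun,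
    ZMod.card, Fintype.card_fin]

/-- balanced sequences with few repetitions -/
lemma exists_seq (hm : 3 ≤ m) (p q k : ℕ) (h1 : 1 ≤ q) (h2 : q ≤ k * m ^ (p + 1)) :
    ∃ a : ZMod (m * q) → ZMod m, (∀ c, Nat.card {i // a i = c} = q) ∧
      ∀ w : Fin (p + 2) → ZMod m,
        Nat.card {i : ZMod (m * q) // ∀ j : Fin (p + 2), a (i + (j : ℕ)) = w j} ≤ k := by
  classical
  have hM : 0 < m ^ (p + 1) := Nat.pow_pos (by omega)
  obtain ⟨k1, r, hq, hr1, hr2, hk⟩ : ∃ k1 r, q = k1 * m ^ (p + 1) + r ∧ 1 ≤ r ∧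
      r ≤ m ^ (p + 1) ∧ k1 + 1 ≤ k := by
    have e1 := Nat.div_add_mod (q - 1) (m ^ (p + 1))
    have e2 := Nat.mod_lt (q - 1) hM
    refine ⟨(q - 1) / m ^ (p + 1), (q - 1) % m ^ (p + 1) + 1, ?_, Nat.le_add_left 1 _, e2, ?_⟩
    · rw [mul_comm] at e1; omega
    · have : (q - 1) / m ^ (p + 1) < k := by
        rw [Nat.div_lt_iff_lt_mul hM]; omega
      omega
  obtain ⟨a, ha1, ha2⟩ := stage_one hm p r hr1 hr2
  have : NeZero (m * q) := ⟨by
    have : 0 < m * q := Nat.mul_pos (by omega) (by omega)
    omega⟩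
  have : NeZero (m * r) := ⟨by
    have : 0 < m * r := Nat.mul_pos (by omega) (by omega)
    omega⟩
  -- occurrences in the simple sequence
  have hocc : ∀ w : Fin (p + 2) → ZMod m,
      Nat.card {i : ZMod (m * r) // (fun j : Fin (p + 2) => a (i + (j : ℕ))) = w} ≤ 1 := by
    intro w
    have : Subsingleton {i : ZMod (m * r) // (fun j : Fin (p + 2) => a (i + (j : ℕ))) = w} :=
      ⟨fun x y => Subtype.ext (ha2 (x.2.trans y.2.symm))⟩
    exact Finite.card_le_one_iff_subsingleton.2 this
  rcases Nat.eq_zero_or_pos k1 with h0 | hpos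
  · subst h0
    have : q = r := by rw [hq]; simp
    subst this
    refine ⟨a, ha1, fun w => ?_⟩
    have e := hocc w
    have h3 : Nat.card {i : ZMod (m * q) // ∀ j : Fin (p + 2), a (i + (j : ℕ)) = w j} =
        Nat.card {i : ZMod (m * q) // (fun j : Fin (p + 2) => a (i + (j : ℕ))) = w} :=
      Nat.card_congr (Equiv.subtypeEquivRight (fun i => funext_iff.symm))
    rw [h3]
    omega
  -- several copies of all words
  let word : (Fin k1 × (Fin (p + 2) → ZMod m)) ⊕ ZMod (m * r) → Fin (p + 2) → ZMod m :=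
    Sum.elim (fun x => x.2) (fun i j => a (i + (j : ℕ)))
  have hsplit : ∀ P : (Fin (p + 2) → ZMod m) → Prop,
      Nat.card {x // P (word x)} = k1 * Nat.card {x // P x} +
        Nat.card {i : ZMod (m * r) // P (fun j => a (i + (j : ℕ)))} := by
    intro P
    rw [Nat.card_congr (Equiv.subtypeSum (p := fun x => P (word x))), Nat.card_sum]
    congr 1
    have : Nat.card {x : Fin k1 × (Fin (p + 2) → ZMod m) // P x.2} =
        Nat.card (Fin k1 × {x : Fin (p + 2) → ZMod m // P x}) := by
      refine Nat.card_congr ⟨fun x => (x.1.1, ⟨x.1.2, x.2⟩), fun x => ⟨(x.1, x.2.1), x.2.2⟩,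
        fun x => rfl, fun x => rfl⟩
    rw [Nat.card_prod, Nat.card_eq_fintype_card (α := Fin k1), Fintype.card_fin] at this
    exact this
  have : Nonempty ((Fin k1 × (Fin (p + 2) → ZMod m)) ⊕ ZMod (m * r)) := ⟨Sum.inr 0⟩
  obtain ⟨b, f, hf, h⟩ := cyc_tokens word
    (by
      intro v
      rw [hsplit (fun x => Fin.init x = v), hsplit (fun x => Fin.tail x = v)]
      congr 1
      · congr 1
        rw [card_univ_sub (fun x : Fin (p + 2) → ZMod m => Fin.init x = v),
          card_univ_sub (fun x : Fin (p + 2) → ZMod m => Fin.tail x = v)]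
        exact bal_univ (p + 1) v
      · refine Nat.card_congr ((Equiv.subRight (1 : ZMod (m * r))).subtypeEquiv ?_)
        intro i
        have : Fin.init (fun j : Fin (p + 2) => a (i + (j : ℕ))) =
            Fin.tail (fun j : Fin (p + 2) => a (Equiv.subRight (1 : ZMod (m * r)) i + (j : ℕ))) := by
          funext j
          simp only [Fin.init, Fin.tail, Equiv.subRight_apply, Fin.val_castSucc, Fin.val_succ]
          congr 1
          push_cast; ring
        rw [this])
    (by
      intro x y
      obtain ⟨n, S, w⟩ := c1_univ (m := m) (p + 1) (Fin.tail (word x)) (Fin.init (word y))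
        (V_univ _) (V_univ _) 0
      exact rtg_of_walk word (fun e _ => ⟨Sum.inl (⟨0, hpos⟩, e), rfl⟩) w x y rfl rfl)
    (m * q)
    (by
      rw [Nat.card_sum, Nat.card_prod, Nat.card_eq_fintype_card, Nat.card_eq_fintype_card,
        Nat.card_eq_fintype_card, Fintype.card_fin, Fintype.card_fun, ZMod.card, ZMod.card,
        Fintype.card_fin, hq]
      ring)
  refine ⟨b, ?_, ?_⟩
  · intro c
    have h3 : ∀ i, b i = word (f i) 0 := by
      intro i
      have := h i 0
      simpa using this
    have h4 : Nat.card {i // b i = c} = Nat.card {x // word x 0 = c} :=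
      Nat.card_congr ((Equiv.ofBijective f hf).subtypeEquiv (fun i => by rw [h3 i]; rfl))
    rw [h4, hsplit (fun x => x 0 = c), card_univ_first]
    have h5 : Nat.card {i : ZMod (m * r) // a (i + ((0 : Fin (p + 2)) : ℕ)) = c} = r := by
      refine (Nat.card_congr (Equiv.subtypeEquivRight (fun i => by simp))).trans (ha1 c)
    rw [h5, hq]
  · intro w
    have h4 : Nat.card {i : ZMod (m * q) // ∀ j : Fin (p + 2), b (i + (j : ℕ)) = w j} =
        Nat.card {x // word x = w} := by
      refine Nat.card_congr ((Equiv.ofBijective f hf).subtypeEquiv (fun i => ?_))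
      rw [funext_iff]
      simp only [Equiv.ofBijective_apply, h]
    rw [h4, hsplit (fun x => x = w)]
    have h5 : Nat.card {x : Fin (p + 2) → ZMod m // x = w} = 1 := by
      rw [Nat.card_eq_one_iff_unique]
      exact ⟨⟨fun x y => Subtype.ext (x.2.trans y.2.symm)⟩, ⟨⟨w, rfl⟩⟩⟩
    rw [h5]
    have := hocc w
    omega

end

end Pool.Agent.T2h50.DB
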