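import Mathlib

set_option autoImplicit false
set_option linter.unusedSectionVars false

/-!
# Sets of words over `ZMod m` as Eulerian digraphs and their lifts by the difference map
-/

namespace Pool.Agent.T2h50.DB

open Finset

section
variable {m : ℕ} [NeZero m]

/-- difference word -/
def D {d : ℕ} (x : Fin (d + 1) → ZMod m) : Fin d → ZMod m := fun i => x i.succ - x i.castSucc

/-- all words whose difference word is in the set -/
def lift {d : ℕ} (E : Finset (Fin (d + 1) → ZMod m)) : Finset (Fin (d + 2) → ZMod m) :=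
  univ.filter fun x => D x ∈ E

lemma mem_lift {d : ℕ} (E : Finset (Fin (d + 1) → ZMod m)) (x : Fin (d + 2) → ZMod m) :
    x ∈ lift E ↔ D x ∈ E := by simp [lift]

/-- `v` is the first part of a word of the set -/
def V {d : ℕ} (E : Finset (Fin (d + 1) → ZMod m)) (v : Fin d → ZMod m) : Prop :=
  ∃ e ∈ E, Fin.init e = v

/-- every vertex has equal in- and outdegree -/
def Bal {d : ℕ} (E : Finset (Fin (d + 1) → ZMod m)) : Prop :=
  ∀ v : Fin d → ZMod m,
    (E.filter fun e => Fin.init e = v).card = (E.filter fun e => Fin.tail e = v).card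

lemma Bal.tail_mem {d : ℕ} {E : Finset (Fin (d + 1) → ZMod m)} (h : Bal E) {e}
    (he : e ∈ E) : V E (Fin.tail e) := by
  have h1 := h (Fin.tail e)
  have h2 : 0 < (E.filter fun e' => Fin.tail e' = Fin.tail e).card :=
    Finset.card_pos.2 ⟨e, by simp [he]⟩
  rw [← h1] at h2
  obtain ⟨e', he'⟩ := Finset.card_pos.1 h2
  rw [Finset.mem_filter] at he'
  exact ⟨e', he'.1, he'.2⟩

lemma D_init {d : ℕ} (x : Fin (d + 2) → ZMod m) : D (Fin.init x) = Fin.init (D x) := by
  funext i
  simp only [D, Fin.init, Fin.succ_castSucc]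

lemma D_tail {d : ℕ} (x : Fin (d + 2) → ZMod m) : D (Fin.tail x) = Fin.tail (D x) := by
  funext i
  simp only [D, Fin.tail, Fin.succ_castSucc]

lemma D_eq_sub {d : ℕ} {x y : Fin (d + 1) → ZMod m} (h : D x = D y) (i : Fin (d + 1)) :
    x i - y i = x 0 - y 0 := by
  induction i using Fin.induction with
  | zero => rfl
  | succ i ih =>
    have := congrFun h i
    simp only [D] at this
    linear_combination this + ih

lemma ext_zero {d : ℕ} {x y : Fin (d + 1) → ZMod m} (h : D x = D y) (h0 : x 0 = y 0) :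
    x = y := by
  funext i
  have := D_eq_sub h i
  rw [h0, sub_self] at this
  exact sub_eq_zero.1 this

lemma ext_last {d : ℕ} {x y : Fin (d + 1) → ZMod m} (h : D x = D y)
    (h0 : x (Fin.last d) = y (Fin.last d)) : x = y := by
  apply ext_zero h
  have := D_eq_sub h (Fin.last d)
  rw [h0, sub_self] at this
  exact (sub_eq_zero.1 this.symm)

/-- the word with given differences and given first letter -/
def up {d : ℕ} (e : Fin d → ZMod m) (c : ZMod m) : Fin (d + 1) → ZMod m :=
  Fin.induction (motive := fun _ => ZMod m) c (fun i xi => xi + e i)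

@[simp] lemma up_zero {d : ℕ} (e : Fin d → ZMod m) (c : ZMod m) : up e c 0 = c := rfl

@[simp] lemma D_up {d : ℕ} (e : Fin d → ZMod m) (c : ZMod m) : D (up e c) = e := by
  funext i
  simp [D, up, Fin.induction_succ]

lemma exists_last {d : ℕ} (e : Fin d → ZMod m) (c : ZMod m) :
    ∃ x : Fin (d + 1) → ZMod m, D x = e ∧ x (Fin.last d) = c := by
  refine ⟨fun i => up e 0 i + (c - up e 0 (Fin.last d)), ?_, by ring⟩
  funext i
  have := congrFun (D_up e 0) i
  simp only [D] at this ⊢
  linear_combination this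

lemma card_lift {d : ℕ} (E : Finset (Fin (d + 1) → ZMod m)) :
    (lift E).card = m * E.card := by
  have : (lift E).card = (E ×ˢ (univ : Finset (ZMod m))).card := by
    refine Finset.card_nbij' (fun x => (D x, x 0)) (fun p => up p.1 p.2) ?_ ?_ ?_ ?_
    · intro x hx
      simpa [mem_lift] using hx
    · rintro ⟨e, c⟩ hx
      simpa [mem_lift] using hx
    · intro x _
      exact ext_zero (by simp) (by simp)
    · rintro ⟨e, c⟩ _
      simp
  rw [this, Finset.card_product, Finset.card_univ, ZMod.card, mul_comm]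

lemma card_lift_first {d : ℕ} (E : Finset (Fin (d + 1) → ZMod m)) (c : ZMod m) :
    ((lift E).filter fun x => x 0 = c).card = E.card := by
  refine Finset.card_nbij' (fun x => D x) (fun e => up e c) ?_ ?_ ?_ ?_
  · intro x hx
    simp only [coe_filter, Set.mem_ofPred_eq] at hx
    exact (mem_lift E x).1 hx.1
  · intro e he
    simp only [coe_filter, Set.mem_ofPred_eq]
    exact ⟨(mem_lift E _).2 (by simpa using he), by simp⟩
  · intro x hx
    simp only [coe_filter, Set.mem_ofPred_eq] at hx
    exact ext_zero (by simp) (by simp [hx.2])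
  · intro e _
    simp

lemma V_lift {d : ℕ} (E : Finset (Fin (d + 1) → ZMod m)) (y : Fin (d + 1) → ZMod m) :
    V (lift E) y ↔ V E (D y) := by
  constructor
  · rintro ⟨x, hx, rfl⟩
    exact ⟨D x, (mem_lift E x).1 hx, (D_init x).symm⟩
  · rintro ⟨e, he, hey⟩
    refine ⟨up e (y 0), (mem_lift E _).2 (by simpa using he), ?_⟩
    apply ext_zero
    · rw [D_init, D_up, hey]
    · simp [Fin.init]

lemma Bal.lift {d : ℕ} {E : Finset (Fin (d + 1) → ZMod m)} (h : Bal E) : Bal (lift E) := by
  intro y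
  have h1 : ((DB.lift E).filter fun x => Fin.init x = y).card =
      (E.filter fun e => Fin.init e = D y).card := by
    refine Finset.card_nbij' (fun x => D x) (fun e => up e (y 0)) ?_ ?_ ?_ ?_
    · intro x hx
      simp only [coe_filter, Set.mem_ofPred_eq] at hx ⊢
      exact ⟨(mem_lift E x).1 hx.1, by rw [← D_init, hx.2]⟩
    · intro e he
      simp only [coe_filter, Set.mem_ofPred_eq] at he ⊢
      refine ⟨(mem_lift E _).2 (by simpa using he.1), ?_⟩
      apply ext_zero
      · rw [D_init, D_up, he.2]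
      · simp [Fin.init]
    · intro x hx
      simp only [coe_filter, Set.mem_ofPred_eq] at hx
      refine ext_zero (by simp) ?_
      show up (D x) (y 0) 0 = x 0
      rw [up_zero, ← hx.2]
      simp [Fin.init]
    · intro e _
      simp
  have h2 : ((DB.lift E).filter fun x => Fin.tail x = y).card =
      (E.filter fun e => Fin.tail e = D y).card := by
    refine Finset.card_nbij' (fun x => D x) (fun e => up e (y 0 - e 0)) ?_ ?_ ?_ ?_
    · intro x hx
      simp only [coe_filter, Set.mem_ofPred_eq] at hx ⊢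
      exact ⟨(mem_lift E x).1 hx.1, by rw [← D_tail, hx.2]⟩
    · intro e he
      simp only [coe_filter, Set.mem_ofPred_eq] at he ⊢
      refine ⟨(mem_lift E _).2 (by simpa using he.1), ?_⟩
      apply ext_zero
      · rw [D_tail, D_up, he.2]
      · have := congrFun (D_up e (y 0 - e 0)) 0
        simp only [D, Fin.castSucc_zero, up_zero] at this
        simp only [Fin.tail]
        linear_combination this
    · intro x hx
      simp only [coe_filter, Set.mem_ofPred_eq] at hx
      refine ext_zero (by simp) ?_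
      show up (D x) (y 0 - D x 0) 0 = x 0
      rw [up_zero, ← hx.2]
      simp [Fin.tail, D]
    · intro e _
      simp
  rw [h1, h2, h]

/-- walks: `s` is the sum of the appended letters, `n` the length, `S` the sum of the partial
sums (all modulo `m`) -/
inductive Walk {d : ℕ} (E : Finset (Fin (d + 1) → ZMod m)) :
    (Fin d → ZMod m) → (Fin d → ZMod m) → ZMod m → ZMod m → ZMod m → Prop
  | nil (u) : Walk E u u 0 0 0
  | cons (e) (he : e ∈ E) {v s n S} (w : Walk E (Fin.tail e) v s n S) :
      Walk E (Fin.init e) v (e (Fin.last d) + s) (1 + n) (e (Fin.last d) + n * e (Fin.last d) + S)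

namespace Walk
variable {d : ℕ} {E : Finset (Fin (d + 1) → ZMod m)}

lemma cast {u v : Fin d → ZMod m} {s n S s' n' S' : ZMod m} (w : Walk E u v s n S)
    (hs : s = s') (hn : n = n') (hS : S = S') : Walk E u v s' n' S' := by
  subst hs hn hS; exact w

lemma trans {u v x : Fin d → ZMod m} {s n S s' n' S' : ZMod m} (w : Walk E u v s n S)
    (w' : Walk E v x s' n' S') : Walk E u x (s + s') (n + n') (S + S' + n' * s) := by
  induction w with
  | nil u => exact w'.cast (by ring) (by ring) (by ring)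
  | cons e he w ih =>
    exact (Walk.cons e he (ih w')).cast (by ring) (by ring) (by ring)

lemma single (e) (he : e ∈ E) :
    Walk E (Fin.init e) (Fin.tail e) (e (Fin.last d)) 1 (e (Fin.last d)) :=
  (Walk.cons e he (Walk.nil _)).cast (by ring) (by ring) (by ring)

lemma pow {u : Fin d → ZMod m} {n S : ZMod m} (w : Walk E u u 0 n S) (j : ℕ) :
    Walk E u u 0 (j * n) (j * S) := by
  induction j with
  | zero => exact (Walk.nil u).cast rfl (by simp) (by simp)
  | succ j ih => exact (w.trans ih).cast (by ring) (by push_cast; ring) (by push_cast; ring)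

lemma mono {E' : Finset (Fin (d + 1) → ZMod m)} (h : E ⊆ E') {u v : Fin d → ZMod m}
    {s n S : ZMod m} (w : Walk E u v s n S) : Walk E' u v s n S := by
  induction w with
  | nil u => exact Walk.nil u
  | cons e he w ih => exact Walk.cons e (h he) ih

lemma lift {u v : Fin d → ZMod m} {s n S : ZMod m} (w : Walk E u v s n S) :
    ∀ y y' : Fin (d + 1) → ZMod m, D y = u → D y' = v →
      y' (Fin.last d) = y (Fin.last d) + s →
      ∃ S', Walk (DB.lift E) y y' (S + n * y (Fin.last d)) n S' := by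
  induction w with
  | nil u =>
    intro y y' h1 h2 h3
    have : y = y' := ext_last (h1.trans h2.symm) (by rw [h3, add_zero])
    subst this
    exact ⟨0, (Walk.nil y).cast (by ring) rfl rfl⟩
  | cons e he w ih =>
    rename_i v s n S
    intro y y' h1 h2 h3
    obtain ⟨x, hx1, hx2⟩ := exists_last e (y (Fin.last d) + e (Fin.last d))
    have hDlast : x (Fin.last (d + 1)) - x (Fin.last d).castSucc = e (Fin.last d) := by
      have := congrFun hx1 (Fin.last d)
      simpa [D] using this
    have hinit : Fin.init x = y := by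
      apply ext_last
      · rw [D_init, hx1, h1]
      · simp only [Fin.init]
        linear_combination hx2 - hDlast
    obtain ⟨S', w'⟩ := ih (Fin.tail x) y' (by rw [D_tail, hx1]) h2 (by
      rw [h3]
      simp only [Fin.tail, Fin.succ_last]
      rw [hx2]; ring)
    have hxl : x ∈ DB.lift E := (mem_lift E x).2 (by rw [hx1]; exact he)
    have w'' := Walk.cons x hxl w'
    rw [hinit] at w''
    refine ⟨_, w''.cast ?_ rfl rfl⟩
    simp only [Fin.tail, Fin.succ_last]
    rw [hx2]; ring

end Walk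

/-- strongly connected -/
def C0 {d : ℕ} (E : Finset (Fin (d + 1) → ZMod m)) : Prop :=
  ∀ u v, V E u → V E v → ∃ s n S, Walk E u v s n S

/-- walks with every sum -/
def C1 {d : ℕ} (E : Finset (Fin (d + 1) → ZMod m)) : Prop :=
  ∀ u v, V E u → V E v → ∀ s, ∃ n S, Walk E u v s n S

/-- walks with every sum and every length modulo `m` -/
def C2 {d : ℕ} (E : Finset (Fin (d + 1) → ZMod m)) : Prop :=
  ∀ u v, V E u → V E v → ∀ s n, ∃ S, Walk E u v s n S

lemma C2.c1 {d : ℕ} {E : Finset (Fin (d + 1) → ZMod m)} (h : C2 E) : C1 E :=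
  fun u v hu hv s => ⟨0, h u v hu hv s 0⟩

lemma C1.c0 {d : ℕ} {E : Finset (Fin (d + 1) → ZMod m)} (h : C1 E) : C0 E :=
  fun u v hu hv => ⟨0, h u v hu hv 0⟩

lemma C1.lift {d : ℕ} {E : Finset (Fin (d + 1) → ZMod m)} (h : C1 E) : C0 (lift E) := by
  intro y y' hy hy'
  rw [V_lift] at hy hy'
  obtain ⟨n, S, w⟩ := h _ _ hy hy' (y' (Fin.last d) - y (Fin.last d))
  obtain ⟨S', w'⟩ := w.lift y y' rfl rfl (by ring)
  exact ⟨_, _, _, w'⟩

lemma C2.lift {d : ℕ} {E : Finset (Fin (d + 1) → ZMod m)} (h : C2 E) : C2 (lift E) := by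
  intro y y' hy hy' s t
  rw [V_lift] at hy hy'
  -- closed walk at `D y` with sum `0`, length `0` and `S = 1`
  have key : Walk E (D y) (D y) 0 0 1 := by
    obtain ⟨SZ, wZ⟩ := h _ _ hy hy 0 1
    obtain ⟨SU, wU⟩ := h _ _ hy hy 1 0
    obtain ⟨SU', wU'⟩ := h _ _ hy hy (-1) 0
    have w1 : Walk E (D y) (D y) 0 1 (SZ + SU + SU' + 1) :=
      ((wU.trans wZ).trans wU').cast (by ring) (by ring) (by ring)
    have w2 : Walk E (D y) (D y) 0 1 (SZ + SU + SU') :=
      ((wZ.trans wU).trans wU').cast (by ring) (by ring) (by ring)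
    have hm : ((m - 1 : ℕ) : ZMod m) = -1 := by
      have h1 : 1 ≤ m := NeZero.one_le
      rw [Nat.cast_sub h1]
      simp
    have w3 := w1.trans (w2.pow (m - 1))
    refine w3.cast (by ring) ?_ ?_
    · rw [hm]; ring
    · rw [hm]; ring
  obtain ⟨S, w⟩ := h _ _ hy hy' (y' (Fin.last d) - y (Fin.last d)) t
  obtain ⟨S', w'⟩ := (((key.pow (s - S - t * y (Fin.last d)).val).trans w).lift y y' rfl rfl
    (by ring))
  refine ⟨S', w'.cast ?_ (by ring) rfl⟩
  rw [ZMod.natCast_zmod_val]
  ring

/-- closed walk at a constant vertex from a loop -/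
lemma loop_walk {d : ℕ} {E : Finset (Fin (d + 1) → ZMod m)} (c : ZMod m)
    (hc : (fun _ => c) ∈ E) (j : ℕ) :
    ∃ S, Walk E (fun _ => c) (fun _ => c) (j * c) j S := by
  induction j with
  | zero => exact ⟨0, (Walk.nil _).cast (by simp) (by simp) rfl⟩
  | succ j ih =>
    obtain ⟨S, w⟩ := ih
    have w1 : Walk E (fun _ => c) (fun _ => c) c 1 c := Walk.single _ hc
    refine ⟨_, (w1.trans w).cast (by push_cast; ring) (by push_cast; ring) rfl⟩

lemma C0.c1 {d : ℕ} {E : Finset (Fin (d + 1) → ZMod m)} (h : C0 E)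
    (h1 : (fun _ => (1 : ZMod m)) ∈ E) : C1 E := by
  have hV : V E (fun _ => (1 : ZMod m)) := ⟨_, h1, rfl⟩
  intro u v hu hv s
  obtain ⟨s1, n1, S1, w1⟩ := h _ _ hu hV
  obtain ⟨s2, n2, S2, w2⟩ := h _ _ hV hv
  obtain ⟨S3, w3⟩ := loop_walk 1 h1 (s - s1 - s2).val
  refine ⟨_, _, ((w1.trans w3).trans w2).cast ?_ rfl rfl⟩
  rw [ZMod.natCast_zmod_val]
  ring

lemma C0.c2 {d : ℕ} {E : Finset (Fin (d + 1) → ZMod m)} (h : C0 E)
    (h1 : (fun _ => (1 : ZMod m)) ∈ E) (h2 : (fun _ => (2 : ZMod m)) ∈ E) : C2 E := by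
  have hV : V E (fun _ => (1 : ZMod m)) := ⟨_, h1, rfl⟩
  have hV2 : V E (fun _ => (2 : ZMod m)) := ⟨_, h2, rfl⟩
  intro u v hu hv s n
  obtain ⟨s1, n1, S1, w1⟩ := h _ _ hu hV
  obtain ⟨s2, n2, S2, w2⟩ := h _ _ hV hV2
  obtain ⟨s3, n3, S3, w3⟩ := h _ _ hV2 hv
  set x := s - s1 - s2 - s3 with hx
  set y := n - n1 - n2 - n3 with hy
  obtain ⟨S4, w4⟩ := loop_walk 1 h1 (2 * y - x).val
  obtain ⟨S5, w5⟩ := loop_walk 2 h2 (x - y).val
  refine ⟨_, ((((w1.trans w4).trans w2).trans w5).trans w3).cast ?_ ?_ rfl⟩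
  · rw [ZMod.natCast_zmod_val, ZMod.natCast_zmod_val]
    rw [hx, hy]; ring
  · rw [ZMod.natCast_zmod_val, ZMod.natCast_zmod_val]
    rw [hx, hy]; ring

end

end Pool.Agent.T2h50.DB
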